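import Mathlib
import Pool.Agent.H42R3.FS5
import Pool.Agent.H42R3.FS6

set_option autoImplicit false

namespace Pool.Agent.Y198.EX
open Pool.Agent.H42R3.FS TensorProduct

universe v

/-- JOB EX-A: an `R`-algebra `S` with compatible nonzero `p⁻¹`-linear maps has geometrically reduced
generic fibre. -/
def stmA : Prop :=
  ∀ (p : ℕ) [Fact p.Prime] (R S : Type) (K' : Type v) [CommRing R] [IsDomain R] [CommRing S] [IsDomain S]
    [CharP S p] [Algebra R S] [Field K'] [Algebra R K'] (ER : R → R) (ES : S → S),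
    Function.Injective (algebraMap R S) → Function.Injective (algebraMap R K') →
    (∀ a b, ES (a + b) = ES a + ES b) → (∀ a b, ES (a ^ p * b) = a * ES b) →
    (∀ r, ES (algebraMap R S r) = algebraMap R S (ER r)) → (∃ r, ER r ≠ 0) →
    IsReduced (K' ⊗[R] S)

/-- JOB EX-B: approximate splittings pass to the power series ring. -/
def stmB : Prop :=
  ∀ (p : ℕ) [Fact p.Prime] (R : Type) [CommRing R] [CharP R p] [CharP (PowerSeries R) p]
    [IsLocalRing R],
    (∀ n : ℕ, ∃ T : Fs p R →ₗ[R] (R ⧸ (IsLocalRing.maximalIdeal R) ^ n), T 1 = 1) →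
    ∀ n : ℕ, ∃ T : Fs p (PowerSeries R) →ₗ[PowerSeries R]
      (PowerSeries R ⧸ (IsLocalRing.maximalIdeal (PowerSeries R)) ^ n), T 1 = 1

/-- JOB EX-C: dimension, nonzero `p⁻¹`-linear maps and splittings for the power series ring. -/
def stmC : Prop :=
  (∀ (R : Type) [CommRing R] [IsDomain R] [IsLocalRing R] [IsNoetherianRing R] (d : ℕ),
    ringKrullDim R = d → ringKrullDim (PowerSeries R) = (d + 1 : ℕ)) ∧
  ∀ (p : ℕ) [Fact p.Prime] (R : Type) [CommRing R] [CharP R p] [CharP (PowerSeries R) p],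
    ((∃ φ : Fs p R →ₗ[R] R, φ ≠ 0) → ∃ φ : Fs p (PowerSeries R) →ₗ[PowerSeries R] PowerSeries R, φ ≠ 0) ∧
    ((∃ φ : Fs p (PowerSeries R) →ₗ[PowerSeries R] PowerSeries R, φ 1 = 1) →
      ∃ φ : Fs p R →ₗ[R] R, φ 1 = 1)

/-- JOB EX-D: the completion of the ring `RR D` embeds in `L[[X]]`. -/
def stmD : Prop :=
  ∀ (p : ℕ) [Fact p.Prime] (D : Dat p),
    ∃ j : AdicCompletion (IsLocalRing.maximalIdeal (RR D)) (RR D) →ₐ[RR D] PowerSeries D.L,
      Function.Injective j

/-- JOB EX-E: the closed formal fibre. -/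
def stmE : Prop :=
  ∀ (R : Type) (K' : Type v) [CommRing R] [IsLocalRing R] [IsNoetherianRing R] [Field K'] [Algebra R K'],
    (∀ r ∈ IsLocalRing.maximalIdeal R, algebraMap R K' r = 0) →
    IsReduced (K' ⊗[R] AdicCompletion (IsLocalRing.maximalIdeal R) R)

/-- JOB EX-F: a zero-dimensional Noetherian `F`-pure ring is Frobenius split. -/
def stmF : Prop :=
  ∀ (p : ℕ) [Fact p.Prime] (R : Type) [CommRing R] [CharP R p] [IsNoetherianRing R],
    ringKrullDim R ≤ 0 → IsFPure.{v} p R → ∃ φ : Fs p R →ₗ[R] R, φ 1 = 1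

/-- JOB EX-G: the maximal ideal of `RR D` is not principal (so `RR D` is not regular). -/
def stmG : Prop :=
  ∀ (p : ℕ) [Fact p.Prime] (D : Dat p), ¬ (IsLocalRing.maximalIdeal (RR D)).IsPrincipal

end Pool.Agent.Y198.EX
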