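import Mathlib
import Pool.Agent.Y198.EX.Stm

set_option autoImplicit false

namespace Pool.Agent.Y198.EX
open Pool.Agent.H42R3.FS TensorProduct

universe v

/-- Both formal fibres of the ring `RR D` are geometrically reduced. -/
theorem formal (hA : stmA.{v}) (hD : stmD) (hE : stmE.{v}) (p : ℕ) [Fact p.Prime] (D : Dat p)
    (K : Type v) [Field K] [Algebra (RR D) K] :
    IsReduced (K ⊗[RR D] AdicCompletion (IsLocalRing.maximalIdeal (RR D)) (RR D)) := by
  by_cases hinj : Function.Injective (algebraMap (RR D) K)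
  · obtain ⟨j, hj⟩ := hD p D
    have hred : IsReduced (K ⊗[RR D] PowerSeries D.L) := by
      refine hA p (RR D) (PowerSeries D.L) K (fun f => nz D f)
        (fun f => PowerSeries.X * ext D.ψ f) Subtype.val_injective hinj ?_ ?_ ?_ ?_
      · intro a b
        change PowerSeries.X * ext D.ψ (a + b) = _
        rw [ext_add psi_plin, mul_add]
      · intro a b
        change PowerSeries.X * ext D.ψ (a ^ p * b) = _
        rw [ext_pow_mul psi_plin]
        ring
      · intro r
        rfl
      · by_contra h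
        push Not at h
        exact nz_ne (D := D) (LinearMap.ext fun x => h x)
    have hKflat : Module.Flat (RR D) K := by
      let _ : Algebra (FractionRing (RR D)) K := (IsFractionRing.lift hinj).toAlgebra
      have : IsScalarTower (RR D) (FractionRing (RR D)) K := IsScalarTower.of_algebraMap_eq
        (fun x => by
          change _ = IsFractionRing.lift hinj (algebraMap (RR D) (FractionRing (RR D)) x)
          rw [IsFractionRing.lift_algebraMap])
      have : Module.Flat (RR D) (FractionRing (RR D)) :=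
        IsLocalization.flat (FractionRing (RR D)) (nonZeroDivisors (RR D))
      exact Module.Flat.trans (RR D) (FractionRing (RR D)) K
    have hinj2 : Function.Injective (Algebra.TensorProduct.map (AlgHom.id K K) j) :=
      Module.Flat.lTensor_preserves_injective_linearMap (M := K) j.toLinearMap hj
    exact isReduced_of_injective (Algebra.TensorProduct.map (AlgHom.id K K) j) hinj2
  · apply hE
    intro r hr
    rw [← RingHom.coe_coe, injective_iff_map_eq_zero] at hinj
    push Not at hinj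
    obtain ⟨x, hx, hx0⟩ := hinj
    have h1 := max_le_radical x hx0 hr
    rw [Ideal.mem_radical_iff] at h1
    obtain ⟨n, hn⟩ := h1
    rw [Ideal.mem_span_singleton] at hn
    obtain ⟨y, hy⟩ := hn
    have h2 : (algebraMap (RR D) K r) ^ n = 0 := by
      rw [← map_pow, hy, map_mul]
      rw [show algebraMap (RR D) K x = 0 from hx, zero_mul]
    have hn0 : n ≠ 0 := by
      rintro rfl
      simp at h2
    exact (pow_eq_zero_iff hn0).1 h2

/-- the inductive construction -/
theorem chain (hB : stmB) (hC : stmC) (p : ℕ) [Fact p.Prime] (d : ℕ) :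
    ∃ (R : Type) (_ : CommRing R) (_ : CharP R p) (_ : IsDomain R) (_ : IsLocalRing R)
      (_ : IsNoetherianRing R), ringKrullDim R = (d + 1 : ℕ) ∧
      (∀ n : ℕ, ∃ T : Fs p R →ₗ[R] (R ⧸ (IsLocalRing.maximalIdeal R) ^ n), T 1 = 1) ∧
      (∃ φ : Fs p R →ₗ[R] R, φ ≠ 0) ∧ ¬ ∃ φ : Fs p R →ₗ[R] R, φ 1 = 1 := by
  induction d with
  | zero =>
    exact ⟨RR (dat p), inferInstance, inferInstance, inferInstance, inferInstance, inferInstance,
      by rw [dim_one]; norm_num, fun n => ⟨TT (dat p) n, TT_one n⟩, ⟨nz (dat p), nz_ne⟩,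
      fun ⟨φ, h⟩ => no_split φ h⟩
  | succ d ih =>
    obtain ⟨R, i1, i2, i3, i4, i5, hd, hT, hn, hs⟩ := ih
    have i2' : CharP (PowerSeries R) p :=
      charP_of_injective_ringHom (f := (PowerSeries.C : R →+* PowerSeries R)) PowerSeries.C_injective p
    refine ⟨PowerSeries R, inferInstance, i2', inferInstance, inferInstance, inferInstance, ?_, ?_, ?_, ?_⟩
    · exact hC.1 R (d + 1) hd
    · exact hB p R hT
    · exact (hC.2 p R).1 hn
    · exact fun h => hs ((hC.2 p R).2 h)

/-- **Main theorem.** -/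
theorem main (hA : stmA.{v}) (hA0 : stmA.{0}) (hB : stmB) (hC : stmC) (hD : stmD) (hE : stmE.{v})
    (hE0 : stmE.{0})
    (hF : stmF.{v}) (hG : stmG)
    (hH : ∀ (p : ℕ) [Fact p.Prime] (D : Dat p), HenselianLocalRing (RR D)) (p : ℕ) [Fact p.Prime] :
    (∃ (R : Type) (_ : CommRing R) (_ : CharP R p) (_ : IsDomain R) (_ : IsLocalRing R),
      IsNoetherianRing R ∧ HenselianLocalRing R ∧ ringKrullDim R = 1 ∧
      ¬ (IsLocalRing.maximalIdeal R).IsPrincipal ∧
      Algebra.IsGeometricallyReduced R (AdicCompletion (IsLocalRing.maximalIdeal R) R) ∧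
      (∀ (K : Type v) [Field K] [Algebra R K],
        IsReduced (K ⊗[R] AdicCompletion (IsLocalRing.maximalIdeal R) R)) ∧
      IsFPure.{v} p R ∧ (∃ φ : Fs p R →ₗ[R] R, φ ≠ 0) ∧ ¬ ∃ φ : Fs p R →ₗ[R] R, φ 1 = 1) ∧
    ∀ d : ℕ, 1 ≤ d ↔
      ∃ (R : Type) (_ : CommRing R) (_ : CharP R p), IsDomain R ∧ IsLocalRing R ∧
        IsNoetherianRing R ∧ ringKrullDim R = d ∧ IsFPure.{v} p R ∧
        (∃ φ : Fs p R →ₗ[R] R, φ ≠ 0) ∧ ¬ ∃ φ : Fs p R →ₗ[R] R, φ 1 = 1 := by
  refine ⟨⟨RR (dat p), inferInstance, inferInstance, inferInstance, inferInstance, inferInstance,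
    hH p (dat p), dim_one, hG p (dat p), ⟨fun q hq => ?_⟩, fun K _ _ => formal hA hD hE p (dat p) K, isFPure,
    ⟨nz (dat p), nz_ne⟩, fun ⟨φ, h⟩ => no_split φ h⟩, fun d => ⟨fun hd => ?_, ?_⟩⟩
  · exact formal hA0 hD hE0 p (dat p) _
  · obtain ⟨e, rfl⟩ : ∃ e, d = e + 1 := ⟨d - 1, by omega⟩
    obtain ⟨R, i1, i2, i3, i4, i5, hd', hT, hn, hs⟩ := chain hB hC p e
    choose T hT using hT
    exact ⟨R, i1, i2, i3, i4, i5, hd', pure_of_approx T hT, hn, hs⟩
  · rintro ⟨R, i1, i2, i3, i4, i5, hd', hP, hn, hs⟩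
    by_contra hd0
    obtain rfl : d = 0 := by omega
    exact hs (hF p R (by rw [hd']; norm_num) hP)

end Pool.Agent.Y198.EX
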